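import Pool.Agent.W345.VO.Stm

set_option autoImplicit false

/-! Project VO (helper345), part OM01. -/

namespace Pool.Agent.W15.VO

open Pool.Agent.W345.VO MvPolynomial

theorem bc_zero (l : ℤ) : bc l 0 = 1 := by simp [bc]

theorem bc_nat (n i : ℕ) : bc (n : ℤ) i = (Nat.choose n i : ℂ) := by
  unfold bc
  rw [Ring.choose_natCast]
  simp

theorem bc_0 (i : ℕ) (hi : i ≠ 0) : bc 0 i = 0 := by
  have := bc_nat 0 i
  rw [Nat.choose_eq_zero_of_lt (by omega)] at this
  simpa using this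

theorem bc_1 (i : ℕ) (hi : 2 ≤ i) : bc 1 i = 0 := by
  have := bc_nat 1 i
  rw [Nat.choose_eq_zero_of_lt (by omega)] at this
  simpa using this

theorem bc_11 : bc 1 1 = 1 := by
  have := bc_nat 1 1
  simpa using this

/-- the commutator formula -/
theorem comm_gen (A : VertexAlgebra VV) (a b w : VV) (l m : ℤ) :
    ∑ᶠ i : ℕ, bc l i • A.Y (A.Y a (0 + i) b) (l + m - i) w =
      A.Y a l (A.Y b m w) - A.Y b m (A.Y a l w) := by
  rw [A.borcherds a b w l m 0, finsum_eq_single _ 0]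
  · simp [bc_zero]
  · intro i hi
    rw [bc_0 i hi]
    simp

theorem comm0 (A : VertexAlgebra VV) (a b w : VV) (m : ℤ) :
    A.Y a 0 (A.Y b m w) - A.Y b m (A.Y a 0 w) = A.Y (A.Y a 0 b) m w := by
  rw [← comm_gen, finsum_eq_single _ 0]
  · simp [bc_zero]
  · intro i hi
    rw [bc_0 i hi, zero_smul]

theorem comm1 (A : VertexAlgebra VV) (a b w : VV) (m : ℤ) :
    A.Y a 1 (A.Y b m w) - A.Y b m (A.Y a 1 w) =
      A.Y (A.Y a 0 b) (m + 1) w + A.Y (A.Y a 1 b) m w := by
  rw [← comm_gen, finsum_eq_sum_of_support_subset (s := Finset.range 2)]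
  · rw [Finset.sum_range_succ, Finset.sum_range_one, bc_zero, bc_11, one_smul, one_smul]
    have e1 : (1 : ℤ) + m - ((0 : ℕ) : ℤ) = m + 1 := by push_cast; ring
    have e2 : (1 : ℤ) + m - ((1 : ℕ) : ℤ) = m := by push_cast; ring
    have e3 : (0 : ℤ) + ((0 : ℕ) : ℤ) = 0 := by simp
    have e4 : (0 : ℤ) + ((1 : ℕ) : ℤ) = 1 := by simp
    rw [e1, e2, e3, e4]
  · intro i hi
    by_contra h
    apply hi
    have : 2 ≤ i := by
      simp only [Finset.coe_range, Set.mem_Iio, not_lt] at h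
      exact h
    show bc 1 i • _ = 0
    rw [bc_1 i this, zero_smul]

theorem hOp_al (n : ℕ) : hOp (n : ℤ) al = if n = 1 then (2 : ℂ) • ee 0 else 0 := by
  unfold al ee
  cases n with
  | zero =>
    have h := hOp_zero 0 (X 0)
    simp at h ⊢
    exact h
  | succ l =>
    have h := hOp_pos l 0 (X 0)
    have e : ((l + 1 : ℕ) : ℤ) = (l : ℤ) + 1 := by push_cast; rfl
    rw [e, h]
    cases l with
    | zero => simp [Finsupp.smul_single]
    | succ l =>
      have : l + 1 + 1 ≠ 1 := by omega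
      simp [pderiv_X]

theorem hOp_ee (hB : S_BAS) (k : ℤ) (n : ℕ) :
    hOp (n : ℤ) (ee k) = if n = 0 then (2 * (k : ℂ)) • ee k else 0 := by
  cases n with
  | zero => simpa using hB.2.2.1 k
  | succ l =>
    rw [hB.2.2.2 k _ (by positivity)]
    simp

theorem hOp_m1 (k : ℤ) (p : PP) :
    hOp (-1) (Finsupp.single k p) = Finsupp.single k (X 0 * p) := by
  have := hOp_neg 0 k p
  simpa using this

theorem hOp_m2 (k : ℤ) (p : PP) :
    hOp (-2) (Finsupp.single k p) = Finsupp.single k (X 1 * p) := by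
  have := hOp_neg 1 k p
  have e : (-((1 : ℕ) : ℤ) - 1) = -2 := by norm_num
  rw [e] at this
  exact this

theorem om0_al (hOM : S_OM) (A : VertexAlgebra VV) (hA : Good A) : A.Y om 0 al = TT al := by
  rw [hOM A hA 0 al, finsum_eq_single _ 1]
  · have h1 : hOp ((0 : ℤ) + ((1 : ℕ) : ℤ)) al = (2 : ℂ) • ee 0 := by
      have := hOp_al 1
      simpa using this
    have h2 : hOp (((1 : ℕ) : ℤ)) al = (2 : ℂ) • ee 0 := by
      have := hOp_al 1
      simpa using this
    have e1 : (-1 - ((1 : ℕ) : ℤ)) = -2 := by norm_num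
    have e2 : ((0 : ℤ) - 1 - ((1 : ℕ) : ℤ)) = -2 := by norm_num
    rw [h1, h2, e1, e2, map_smul]
    have e3 : hOp (-2) (ee 0) = Finsupp.single 0 (X 1) := by
      unfold ee
      rw [hOp_m2, mul_one]
    rw [e3]
    have e4 : TT al = Finsupp.single 0 (X 1) := by
      unfold al
      rw [TT_single]
      simp [DD]
    rw [e4]
    simp only [Int.cast_zero, zero_div, zero_smul, zero_mul, sub_zero, add_zero]
    rw [← two_smul ℂ, smul_smul, smul_smul]
    norm_num
  · intro i hi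
    have h1 : hOp ((0 : ℤ) + (i : ℤ)) al = 0 := by
      rw [zero_add, hOp_al i, if_neg hi]
    have h2 : hOp ((i : ℤ)) al = 0 := by
      rw [hOp_al i, if_neg hi]
    rw [h1, h2, map_zero, map_zero, add_zero]

theorem om0_ee (hB : S_BAS) (hOM : S_OM) (A : VertexAlgebra VV) (hA : Good A) (k : ℤ) :
    A.Y om 0 (ee k) = TT (ee k) := by
  rw [hOM A hA 0 (ee k), finsum_eq_single _ 0]
  · have h1 : hOp ((0 : ℤ) + ((0 : ℕ) : ℤ)) (ee k) = (2 * (k : ℂ)) • ee k := by
      have := hOp_ee hB k 0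
      simpa using this
    have h2 : hOp (((0 : ℕ) : ℤ)) (ee k) = (2 * (k : ℂ)) • ee k := by
      have := hOp_ee hB k 0
      simpa using this
    have e1 : (-1 - ((0 : ℕ) : ℤ)) = -1 := by norm_num
    have e2 : ((0 : ℤ) - 1 - ((0 : ℕ) : ℤ)) = -1 := by norm_num
    rw [h1, h2, e1, e2, map_smul]
    have e3 : hOp (-1) (ee k) = Finsupp.single k (X 0) := by
      unfold ee
      rw [hOp_m1, mul_one]
    rw [e3, hB.2.1 k]
    simp only [Int.cast_zero, zero_div, zero_smul, zero_mul, sub_zero, add_zero]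
    rw [← two_smul ℂ, smul_smul, smul_smul, Finsupp.smul_single]
    congr 2
    ring
  · intro i hi
    have h1 : hOp ((0 : ℤ) + (i : ℤ)) (ee k) = 0 := by
      rw [zero_add, hOp_ee hB k i, if_neg hi]
    have h2 : hOp ((i : ℤ)) (ee k) = 0 := by
      rw [hOp_ee hB k i, if_neg hi]
    rw [h1, h2, map_zero, map_zero, add_zero]

theorem om1_al (hOM : S_OM) (A : VertexAlgebra VV) (hA : Good A) : A.Y om 1 al = al := by
  rw [hOM A hA 1 al, finsum_eq_sum_of_support_subset (s := Finset.range 2)]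
  · rw [Finset.sum_range_succ, Finset.sum_range_one]
    have h1 : hOp ((1 : ℤ) + ((0 : ℕ) : ℤ)) al = (2 : ℂ) • ee 0 := by
      have := hOp_al 1
      simpa using this
    have h2 : hOp (((0 : ℕ) : ℤ)) al = 0 := by
      have := hOp_al 0
      simpa using this
    have h3 : hOp ((1 : ℤ) + ((1 : ℕ) : ℤ)) al = 0 := by
      have := hOp_al 2
      have e : ((1 : ℤ) + ((1 : ℕ) : ℤ)) = ((2 : ℕ) : ℤ) := by norm_num
      rw [e, this, if_neg (by norm_num)]
    have h4 : hOp (((1 : ℕ) : ℤ)) al = (2 : ℂ) • ee 0 := by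
      have := hOp_al 1
      simpa using this
    have h5 : hOp ((1 : ℤ) - 1) al = 0 := by
      have := hOp_al 0
      simpa using this
    have e1 : (-1 - ((0 : ℕ) : ℤ)) = -1 := by norm_num
    have e2 : ((1 : ℤ) - 1 - ((1 : ℕ) : ℤ)) = -1 := by norm_num
    rw [h1, h2, h3, h4, h5, e1, e2, map_zero, map_zero, map_smul]
    have e3 : hOp (-1) (ee 0) = al := by
      unfold ee al
      rw [hOp_m1, mul_one]
    rw [e3]
    simp only [Int.cast_one, sub_self, mul_zero, zero_smul, smul_zero, sub_zero, add_zero,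
      zero_add]
    rw [← two_smul ℂ, smul_smul, smul_smul]
    norm_num
  · intro i hi
    by_contra h
    apply hi
    have h2 : 2 ≤ i := by
      simp only [Finset.coe_range, Set.mem_Iio, not_lt] at h
      exact h
    show hOp (-1 - (i : ℤ)) (hOp (1 + (i : ℤ)) al) + hOp (1 - 1 - (i : ℤ)) (hOp (i : ℤ) al) = 0
    have e : (1 : ℤ) + (i : ℤ) = ((i + 1 : ℕ) : ℤ) := by push_cast; ring
    rw [e, hOp_al (i + 1), hOp_al i, if_neg (by omega), if_neg (by omega), map_zero, map_zero,
      add_zero]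

theorem om1_ee (hB : S_BAS) (hOM : S_OM) (A : VertexAlgebra VV) (hA : Good A) (k : ℤ) :
    A.Y om 1 (ee k) = WW (ee k) := by
  rw [hOM A hA 1 (ee k), finsum_eq_single _ 0]
  · have h1 : hOp ((1 : ℤ) + ((0 : ℕ) : ℤ)) (ee k) = 0 := by
      have := hOp_ee hB k 1
      simpa using this
    have h2 : hOp (((0 : ℕ) : ℤ)) (ee k) = (2 * (k : ℂ)) • ee k := by
      have := hOp_ee hB k 0
      simpa using this
    have h3 : hOp (0 : ℤ) (ee k) = (2 * (k : ℂ)) • ee k := by
      have := hOp_ee hB k 0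
      simpa using this
    have e2 : ((1 : ℤ) - 1 - ((0 : ℕ) : ℤ)) = 0 := by norm_num
    have e4 : ((1 : ℤ) - 1) = 0 := by norm_num
    rw [h1, h2, e2, e4, map_smul, h3, map_zero, zero_add]
    have e5 : WW (ee k) = ((k : ℂ) ^ 2 - k) • ee k := by
      unfold ee
      rw [WW_single, Finsupp.smul_single]
      simp
    rw [e5]
    simp only [Int.cast_one, sub_self, mul_zero, zero_smul, add_zero]
    rw [smul_smul, smul_smul, smul_smul, ← sub_smul]
    congr 1
    ring
  · intro i hi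
    have h1 : hOp ((1 : ℤ) + (i : ℤ)) (ee k) = 0 := by
      have e : (1 : ℤ) + (i : ℤ) = ((i + 1 : ℕ) : ℤ) := by push_cast; ring
      rw [e, hOp_ee hB k (i + 1), if_neg (by omega)]
    have h2 : hOp ((i : ℤ)) (ee k) = 0 := by
      rw [hOp_ee hB k i, if_neg hi]
    rw [h1, h2, map_zero, map_zero, add_zero]

theorem WW_h (l : ℕ) (w : VV) :
    WW (hOp (-(l : ℤ) - 1) w) - hOp (-(l : ℤ) - 1) (WW w) =
      ((l : ℂ) + 1) • hOp (-(l : ℤ) - 1) w := by
  have h : (WW ∘ₗ hOp (-(l : ℤ) - 1) - hOp (-(l : ℤ) - 1) ∘ₗ WW : VV →ₗ[ℂ] VV) =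
      ((l : ℂ) + 1) • hOp (-(l : ℤ) - 1) := by
    apply ext_single
    intro k p
    simp only [LinearMap.sub_apply, LinearMap.comp_apply, LinearMap.smul_apply]
    rw [hOp_neg, WW_single, WW_single, hOp_neg, ← Finsupp.single_sub, Finsupp.smul_single]
    congr 1
    rw [Derivation.leibniz]
    have : NN (X l) = C ((l : ℂ) + 1) * X l := by simp [NN]
    rw [this]
    simp only [smul_eq_mul, MvPolynomial.smul_eq_C_mul]
    ring
  have := LinearMap.congr_fun h w
  simpa using this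

theorem om01 : S_HH → S_HE → S_BAS → S_FOCK → S_TH → S_AL → S_OM → S_OM01 := by
  intro _ _ hB hF hTH hAL hOM A hA
  have hal := hAL A hA
  have hT := hA.2.2.2
  have c0 : ∀ (m : ℤ) (w : VV), A.Y om 0 (hOp m w) - hOp m (A.Y om 0 w) =
      (-(m : ℂ)) • hOp (m - 1) w := by
    intro m w
    have := comm0 A om al w m
    rw [om0_al hOM A hA, hal, hT, hal] at this
    simpa using this
  have c1 : ∀ (m : ℤ) (w : VV), A.Y om 1 (hOp m w) - hOp m (A.Y om 1 w) =
      (-(m : ℂ)) • hOp m w := by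
    intro m w
    have := comm1 A om al w m
    rw [om0_al hOM A hA, om1_al hOM A hA, hal, hT, hal] at this
    rw [this]
    have e : m + 1 - 1 = m := by ring
    rw [e, LinearMap.smul_apply]
    have e2 : (-(((m + 1 : ℤ)) : ℂ)) • hOp m w + hOp m w =
        (-(((m + 1 : ℤ)) : ℂ) + 1) • hOp m w := by
      rw [add_smul, one_smul]
    rw [e2]
    congr 1
    push_cast
    ring
  constructor
  · have hS := hF.2 (LinearMap.ker (A.Y om 0 - TT)) (fun k => by
      rw [LinearMap.mem_ker, LinearMap.sub_apply, om0_ee hB hOM A hA, sub_self]) (by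
      intro l v hv
      rw [LinearMap.mem_ker, LinearMap.sub_apply, sub_eq_zero] at hv ⊢
      have h1 := c0 (-(l : ℤ) - 1) v
      have h2 := hTH (-(l : ℤ) - 1) v
      rw [← h2, hv] at h1
      exact sub_left_injective h1)
    have := LinearMap.ker_eq_top.mp hS
    exact sub_eq_zero.mp this
  · have hS := hF.2 (LinearMap.ker (A.Y om 1 - WW)) (fun k => by
      rw [LinearMap.mem_ker, LinearMap.sub_apply, om1_ee hB hOM A hA, sub_self]) (by
      intro l v hv
      rw [LinearMap.mem_ker, LinearMap.sub_apply, sub_eq_zero] at hv ⊢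
      have h1 := c1 (-(l : ℤ) - 1) v
      have h2 := WW_h l v
      have e : (-(((-(l : ℤ) - 1 : ℤ)) : ℂ)) = (l : ℂ) + 1 := by push_cast; ring
      rw [e, ← h2, hv] at h1
      exact sub_left_injective h1)
    have := LinearMap.ker_eq_top.mp hS
    exact sub_eq_zero.mp this

end Pool.Agent.W15.VO
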